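import Mathlib
import Pool.Agent.H312R2.RG.Fin
import Pool.Agent.H507R3.RamGaps

set_option autoImplicit false

/-!
# A Ramsey theorem for chains of record gaps between consecutive primes

Let `f(x) = log x (log₂ x)² log₄ x / (log₃ x)²`, the size of the largest gaps that are known to
occur among the primes up to `x`. For every translation invariant finite colouring of the finite
sets of natural numbers there are at least `x^(7/8)` blocks of `k + 1` consecutive primes up to `x`
whose `k` gaps are all at least `c f(x)`, each at least `A` times the preceding one, and in which any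
two subsets with the same number of elements have the same colour; `c > 0` and `x₀` depend only on
`k`, `A` and the number of colours.

In particular every set `S` such that among any `k + 1` integers there are two whose difference is
in `S` contains all the differences of `k + 1` consecutive primes with gaps of record size.

Method: Maynard's sieve inside the windows of the record sieve (Team RG, starting repository,
theorem `mtrg`), applied to a tuple of primes that is thinned out by the finite Ramsey theorem.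
-/

namespace Pool.Agent.Results.MP_028722_nt.RamseyChains

/-- The record scale `f(x) = log x (log₂ x)² log₄ x / (log₃ x)²` (iterated natural logarithms). -/
noncomputable def f (x : ℝ) : ℝ :=
  Real.log x * (Real.log (Real.log x)) ^ 2 * Real.log (Real.log (Real.log (Real.log x))) /
    (Real.log (Real.log (Real.log x))) ^ 2

/-- The `i`-th prime, numbered from `p 0 = 2`. -/
noncomputable def p (i : ℕ) : ℕ := Nat.nth Nat.Prime i

/-- The set `{p_n, …, p_{n+k}}` of `k + 1` consecutive primes. -/
noncomputable def block (n k : ℕ) : Finset ℕ := (Finset.range (k + 1)).image (fun i => p (n + i))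

/-- The primes `p_n, …, p_{n+k}` are at most `x`, the `k` gaps between them are at least `c f(x)`,
and each gap is at least `A` times the preceding one. -/
def RecordChain (A c x : ℝ) (k n : ℕ) : Prop :=
  (p (n + k) : ℝ) ≤ x ∧ (∀ i < k, c * f x ≤ (p (n + i + 1) : ℝ) - p (n + i)) ∧
    ∀ i, i + 1 < k → A * ((p (n + i + 1) : ℝ) - p (n + i)) ≤ (p (n + i + 2) : ℝ) - p (n + i + 1)

theorem to_ncard (k : ℕ) (x : ℝ) (P : ℕ → Prop) [DecidablePred P]
    (hP : ∀ n, P n → (p (n + k) : ℝ) ≤ x) :
    (((Finset.range ⌊x⌋₊).filter P).card : ℝ) ≤ (Set.ncard {n : ℕ | P n} : ℝ) := by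
  have hfin : {n : ℕ | P n}.Finite := by
    refine (Set.finite_Iic ⌊x⌋₊).subset ?_
    intro n h0
    have h1 := hP n h0
    refine Nat.le_floor (le_trans ?_ h1)
    have h2 : n + k ≤ Nat.nth Nat.Prime (n + k) :=
      (Nat.nth_strictMono Nat.infinite_setOfPred_prime).le_apply
    exact_mod_cast (Nat.le_add_right n k).trans h2
  rw [Nat.cast_le, ← Set.ncard_coe_finset]
  refine Set.ncard_le_ncard ?_ hfin
  intro n hn
  simp only [Finset.coe_filter, Finset.mem_range, Set.mem_ofPred_eq] at hn
  exact hn.2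

theorem first (k r : ℕ) (A : ℝ) (hA : 0 ≤ A) : ∃ c : ℝ, 0 < c ∧ ∃ x₀ : ℝ, ∀ x : ℝ, x₀ ≤ x →
    ∀ χ : Finset ℕ → Fin r, (∀ (Q : Finset ℕ) (a : ℕ), χ (Q.image (fun q => q + a)) = χ Q) →
    x ^ (7 / 8 : ℝ) ≤ (Set.ncard {n : ℕ | RecordChain A c x k n ∧
      ∀ Q Q' : Finset ℕ, Q ⊆ block n k → Q' ⊆ block n k → Q.card = Q'.card → χ Q = χ Q'} : ℝ) := by
  classical
  obtain ⟨c, hc, h⟩ := Pool.Agent.H507R3.RamGaps.ramsey_chains Pool.Agent.H312R2.RG.mtrg k r A hA
  obtain ⟨x₀, hx₀⟩ := Filter.eventually_atTop.1 h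
  refine ⟨c, hc, x₀, fun x hx χ hχ => ?_⟩
  refine (hx₀ x hx χ hχ).trans ?_
  refine le_trans ?_ (to_ncard k x (fun n => RecordChain A c x k n ∧
    ∀ Q Q' : Finset ℕ, Q ⊆ block n k → Q' ⊆ block n k → Q.card = Q'.card → χ Q = χ Q')
    (fun n hn => hn.1.1))
  rw [Nat.cast_le]
  refine Finset.card_le_card fun n hn => ?_
  rw [Finset.mem_filter] at hn ⊢
  exact ⟨hn.1, ⟨hn.2.1, hn.2.2.1, hn.2.2.2.1⟩, hn.2.2.2.2⟩

/-- **Ramsey theorem for record gaps.** Let `k ≥ 0` and `A ≥ 0`.

1. For every number `r` of colours there are `c > 0` and `x₀` such that for all `x ≥ x₀` and every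
colouring `χ` of the finite subsets of `ℕ` with `r` colours that is invariant under translations, at
least `x^(7/8)` blocks `p_n, …, p_{n+k}` of consecutive primes up to `x` have all gaps at least
`c f(x)`, each gap at least `A` times the preceding one, and the property that any two subsets of
the block with the same number of elements have the same colour.

2. There are `c > 0` and `x₀` such that for all `x ≥ x₀` and every set `S ⊆ ℕ` that contains a
difference `b - a`, `a < b`, of two elements of each set of `k + 1` natural numbers, at least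
`x^(7/8)` blocks `p_n, …, p_{n+k}` of consecutive primes up to `x` have all gaps at least `c f(x)`,
each gap at least `A` times the preceding one, and all differences `p_{n+j} - p_{n+i}`, `i < j ≤ k`,
in `S`. -/
theorem result (k : ℕ) (A : ℝ) (hA : 0 ≤ A) :
    (∀ r : ℕ, ∃ c : ℝ, 0 < c ∧ ∃ x₀ : ℝ, ∀ x : ℝ, x₀ ≤ x →
      ∀ χ : Finset ℕ → Fin r, (∀ (Q : Finset ℕ) (a : ℕ), χ (Q.image (fun q => q + a)) = χ Q) →
      x ^ (7 / 8 : ℝ) ≤ (Set.ncard {n : ℕ | RecordChain A c x k n ∧
        ∀ Q Q' : Finset ℕ, Q ⊆ block n k → Q' ⊆ block n k → Q.card = Q'.card →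
          χ Q = χ Q'} : ℝ)) ∧
    ∃ c : ℝ, 0 < c ∧ ∃ x₀ : ℝ, ∀ x : ℝ, x₀ ≤ x →
      ∀ S : Set ℕ, (∀ A : Finset ℕ, A.card = k + 1 → ∃ a ∈ A, ∃ b ∈ A, a < b ∧ b - a ∈ S) →
      x ^ (7 / 8 : ℝ) ≤ (Set.ncard {n : ℕ | RecordChain A c x k n ∧
        ∀ i j : ℕ, i < j → j ≤ k → p (n + j) - p (n + i) ∈ S} : ℝ) := by
  classical
  refine ⟨fun r => first k r A hA, ?_⟩
  obtain ⟨c, hc, x₀, h⟩ := first k 2 A hA
  refine ⟨c, hc, x₀, fun x hx S hS => ?_⟩
  let χ : Finset ℕ → Fin 2 := fun Q => if ∃ a ∈ Q, ∃ b ∈ Q, a < b ∧ b - a ∈ S then 1 else 0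
  have hχ : ∀ (Q : Finset ℕ) (a : ℕ), χ (Q.image (fun q => q + a)) = χ Q := by
    intro Q a
    have : (∃ u ∈ Q.image (fun q => q + a), ∃ v ∈ Q.image (fun q => q + a), u < v ∧ v - u ∈ S) ↔
        (∃ u ∈ Q, ∃ v ∈ Q, u < v ∧ v - u ∈ S) := by
      constructor
      · rintro ⟨u, hu, v, hv, huv, hd⟩
        obtain ⟨u', hu', rfl⟩ := Finset.mem_image.1 hu
        obtain ⟨v', hv', rfl⟩ := Finset.mem_image.1 hv
        refine ⟨u', hu', v', hv', by omega, ?_⟩
        have e : v' + a - (u' + a) = v' - u' := by omega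
        rwa [e] at hd
      · rintro ⟨u, hu, v, hv, huv, hd⟩
        refine ⟨u + a, Finset.mem_image_of_mem _ hu, v + a, Finset.mem_image_of_mem _ hv,
          by omega, ?_⟩
        have e : v + a - (u + a) = v - u := by omega
        rwa [e]
    show (if _ then (1 : Fin 2) else 0) = (if _ then (1 : Fin 2) else 0)
    simp only [this]
  refine (h x hx χ hχ).trans ?_
  have hfin : {n : ℕ | RecordChain A c x k n ∧
      ∀ i j : ℕ, i < j → j ≤ k → p (n + j) - p (n + i) ∈ S}.Finite := by
    refine (Set.finite_Iic ⌊x⌋₊).subset ?_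
    intro n h0
    have h1 := h0.1.1
    refine Nat.le_floor (le_trans ?_ h1)
    have h2 : n + k ≤ Nat.nth Nat.Prime (n + k) :=
      (Nat.nth_strictMono Nat.infinite_setOfPred_prime).le_apply
    exact_mod_cast (Nat.le_add_right n k).trans h2
  rw [Nat.cast_le]
  refine Set.ncard_le_ncard ?_ hfin
  intro n hn
  obtain ⟨hrec, hmono⟩ := hn
  refine ⟨hrec, fun i j hij hjk => ?_⟩
  have hsm : StrictMono p := Nat.nth_strictMono Nat.infinite_setOfPred_prime
  have hmem : ∀ i ≤ k, p (n + i) ∈ block n k := fun i hi =>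
    Finset.mem_image.2 ⟨i, Finset.mem_range.2 (by omega), rfl⟩
  have hcard : (block n k).card = k + 1 := by
    unfold block
    rw [Finset.card_image_of_injective, Finset.card_range]
    intro a b hab
    have := hsm.injective hab
    omega
  obtain ⟨a, ha, b, hb, hab, hd⟩ := hS _ hcard
  have hne : p (n + i) < p (n + j) := hsm (by omega)
  have h1 : χ {a, b} = 1 := if_pos ⟨a, by simp, b, by simp, hab, hd⟩
  have h2 : χ {p (n + i), p (n + j)} = 1 := by
    rw [← h1]
    apply hmono
    · intro q hq
      rcases Finset.mem_insert.1 hq with rfl | hq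
      · exact hmem i (by omega)
      · rw [Finset.mem_singleton.1 hq]
        exact hmem j hjk
    · intro q hq
      rcases Finset.mem_insert.1 hq with rfl | hq
      · exact ha
      · rw [Finset.mem_singleton.1 hq]
        exact hb
    · rw [Finset.card_pair hne.ne, Finset.card_pair hab.ne]
  by_contra hcon
  have h3 : χ {p (n + i), p (n + j)} = 0 := by
    refine if_neg ?_
    rintro ⟨u, hu, v, hv, huv, hd'⟩
    rw [Finset.mem_insert, Finset.mem_singleton] at hu hv
    rcases hu with rfl | rfl <;> rcases hv with rfl | rfl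
    · exact lt_irrefl _ huv
    · exact hcon hd'
    · exact absurd huv (not_lt.2 hne.le)
    · exact lt_irrefl _ huv
  rw [h3] at h2
  exact absurd h2 (by decide)

end Pool.Agent.Results.MP_028722_nt.RamseyChains
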